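import Pool.Agent.Work.MP_3d425c_gt.Cy.U1

/-! Oriented simply connected one-manifolds with a group action (no condition on stabilisers);
an invariant additive set function gives a nontrivial real character. -/

namespace Pool.Agent.Work.MP_3d425c_gt.Sk
open Set Filter Topology Pool.Agent.Work.MP_3d425c_gt.Cy

structure Ob (G : Type*) {X : Type*} [Group G] [MulAction G X] (C : Set (ℝ → X))
    (up : X → X → Prop) : Prop where
  pre : Pre G C
  opn' : ∀ c ∈ C, ∀ d ∈ C, IsOpen {u | ∃ v, c u = d v}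
  upc' : ∀ c ∈ C, ∀ s t, up (c s) (c t) ↔ s < t
  upk' : ∀ c ∈ C, ∀ x, (∀ t, x ≠ c t) → ∀ s t, up x (c s) → up x (c t)
  ups : ∀ (g : G) x y, up x y → up (g • x) (g • y)

variable {G X : Type*} [Group G] [MulAction G X] {C : Set (ℝ → X)} {up : X → X → Prop}

/-- The closed upper side. -/
def Up (up : X → X → Prop) (w x : X) : Prop := up w x ∨ x = w

/-- Points whose closed upper side contains `y` but not `x`. -/
def Sep (up : X → X → Prop) (x y : X) : Set X := {w | ¬ Up up w x ∧ Up up w y}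

namespace Ob
variable (h : Ob G C up)
include h

theorem upc {c} (hc : c ∈ C) (s t : ℝ) : up (c s) (c t) ↔ s < t := h.upc' c hc s t

theorem upk {c} (hc : c ∈ C) {x} (hx : ∀ t, x ≠ c t) (s t : ℝ) : up x (c s) → up x (c t) :=
  h.upk' c hc x hx s t

theorem opn {c d} (hc : c ∈ C) (hd : d ∈ C) : IsOpen {u | ∃ v, c u = d v} :=
  h.opn' c hc d hd

theorem inj {c} (hc : c ∈ C) {s t : ℝ} (e : c s = c t) : s = t := by
  rcases lt_trichotomy s t with hl | hl | hl
  · have h1 := (h.upc hc s t).2 hl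
    rw [e] at h1
    exact absurd ((h.upc hc t t).1 h1) (lt_irrefl _)
  · exact hl
  · have h1 := (h.upc hc t s).2 hl
    rw [e] at h1
    exact absurd ((h.upc hc t t).1 h1) (lt_irrefl _)

theorem irr (x : X) : ¬ up x x := by
  obtain ⟨c, hc, t, rfl⟩ := h.pre.cover x
  intro h1
  exact lt_irrefl _ ((h.upc hc t t).1 h1)

theorem ups_iff (g : G) (x y : X) : up (g • x) (g • y) ↔ up x y := by
  refine ⟨fun h1 => ?_, h.ups g x y⟩
  have h2 := h.ups g⁻¹ _ _ h1
  simpa using h2

theorem mono {c} (hc : c ∈ C) {w} {s t : ℝ} (hst : s ≤ t) (hw : up w (c s)) : up w (c t) := by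
  by_cases hw' : ∃ r, w = c r
  · obtain ⟨r, rfl⟩ := hw'
    exact (h.upc hc r t).2 (lt_of_lt_of_le ((h.upc hc r s).1 hw) hst)
  · exact h.upk hc (fun r hr => hw' ⟨r, hr⟩) s t hw

/-- Overlaps are convex. -/
theorem conv {c d} (hc : c ∈ C) (hd : d ∈ C) {u u' w v v' : ℝ} (e : c u = d v)
    (e' : c u' = d v') (h1 : u ≤ w) (h2 : w ≤ u') : ∃ z, v ≤ z ∧ z ≤ v' ∧ c w = d z := by
  have hvv : v ≤ v' := by
    rcases (h1.trans h2).eq_or_lt with huu | huu
    · subst huu
      exact (h.inj hd (e.symm.trans e')).le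
    · have h3 := (h.upc hc u u').2 huu
      rw [e, e'] at h3
      exact ((h.upc hd v v').1 h3).le
  rcases h1.eq_or_lt with h1 | h1
  · subst h1
    exact ⟨v, le_rfl, hvv, e⟩
  rcases h2.eq_or_lt with h2 | h2
  · subst h2
    exact ⟨v', hvv, le_rfl, e'⟩
  have a1 := (h.upc hc u w).2 h1
  have a2 := (h.upc hc w u').2 h2
  by_cases hz : ∃ z, c w = d z
  · obtain ⟨z, hz⟩ := hz
    rw [e, hz] at a1
    rw [e', hz] at a2
    exact ⟨z, ((h.upc hd v z).1 a1).le, ((h.upc hd z v').1 a2).le, hz⟩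
  · exfalso
    rw [e'] at a2
    have a3 := h.upk hd (fun r hr => hz ⟨r, hr⟩) v' v a2
    rw [← e] at a3
    exact lt_asymm h1 ((h.upc hc w u).1 a3)

theorem near {c d} (hc : c ∈ C) (hd : d ∈ C) {u v : ℝ} (e : c u = d v) {N : Set ℝ}
    (hN : N ∈ 𝓝 v) : ∀ᶠ u' in 𝓝 u, ∃ v' ∈ N, c u' = d v' := by
  have ho : {v | ∃ u, d v = c u} ∈ 𝓝 v := (h.opn hd hc).mem_nhds ⟨u, e.symm⟩
  obtain ⟨ε, hε, hb⟩ := Metric.mem_nhds_iff.1 (inter_mem hN ho)
  have hin : ∀ z, v - ε / 2 ≤ z → z ≤ v + ε / 2 → z ∈ N ∩ {v | ∃ u, d v = c u} := by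
    intro z hz1 hz2
    apply hb
    rw [Metric.mem_ball, Real.dist_eq, abs_lt]
    constructor <;> linarith
  obtain ⟨u1, e1⟩ := (hin (v - ε / 2) le_rfl (by linarith)).2
  obtain ⟨u2, e2⟩ := (hin (v + ε / 2) (by linarith) le_rfl).2
  have l1 : u1 < u := by
    have a := (h.upc hd (v - ε / 2) v).2 (by linarith)
    rw [e1, ← e] at a
    exact (h.upc hc u1 u).1 a
  have l2 : u < u2 := by
    have a := (h.upc hd v (v + ε / 2)).2 (by linarith)
    rw [e2, ← e] at a
    exact (h.upc hc u u2).1 a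
  filter_upwards [Ioo_mem_nhds l1 l2] with w hw
  obtain ⟨z, hz1, hz2, hz⟩ := h.conv hc hd e1.symm e2.symm hw.1.le hw.2.le
  exact ⟨z, (hin z hz1 hz2).1, hz⟩

/-- Separation: if `x` is outside the closed upper side of `n` and `y` is inside, then `x`
sees `y` and `n` on the same side. Hint: the set of bad `y` is closed along charts (`conn`). -/
theorem sep {x y n : X} (h1 : ¬ up n x) (h2 : x ≠ n) (hy : up n y ∨ y = n) :
    up x y ↔ up x n := by
  refine h.pre.conn (fun y => (up n y ∨ y = n) → (up x y ↔ up x n)) ?_ n y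
    (fun _ => Iff.rfl) hy
  intro c hc s t hs ht
  by_cases hn : ∃ r, n = c r
  · obtain ⟨r, rfl⟩ := hn
    have hrt : r ≤ t := by
      rcases ht with ht | ht
      · exact ((h.upc hc r t).1 ht).le
      · exact (h.inj hc ht).ge
    by_cases hx : ∃ q, x = c q
    · obtain ⟨q, rfl⟩ := hx
      have hq : q < r := by
        rcases lt_trichotomy q r with a | a | a
        · exact a
        · exact absurd (congrArg c a) h2
        · exact absurd ((h.upc hc r q).2 a) h1
      exact iff_of_true ((h.upc hc q t).2 (lt_of_lt_of_le hq hrt)) ((h.upc hc q r).2 hq)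
    · have hx' : ∀ q, x ≠ c q := fun q hq => hx ⟨q, hq⟩
      exact ⟨h.upk hc hx' t r, h.upk hc hx' r t⟩
  · have hn' : ∀ q, n ≠ c q := fun q hq => hn ⟨q, hq⟩
    have ht' : up n (c t) := ht.resolve_right (fun a => hn' t a.symm)
    have hx' : ∀ q, x ≠ c q := by
      rintro q rfl
      exact h1 (h.upk hc hn' t q ht')
    have := hs (Or.inl (h.upk hc hn' t s ht'))
    exact ⟨fun a => this.1 (h.upk hc hx' t s a), fun a => h.upk hc hx' s t (this.2 a)⟩

/-- The dual separation lemma. -/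
theorem sep' {x y n : X} (h1 : up n x) (hy : ¬ up n y) : up x y ↔ up x n := by
  refine h.pre.conn (fun y => ¬ up n y → (up x y ↔ up x n)) ?_ n y (fun _ => Iff.rfl) hy
  intro c hc s t hs ht
  by_cases hn : ∃ r, n = c r
  · obtain ⟨r, rfl⟩ := hn
    have hrt : t ≤ r := le_of_not_gt (fun a => ht ((h.upc hc r t).2 a))
    by_cases hx : ∃ q, x = c q
    · obtain ⟨q, rfl⟩ := hx
      have hq : r < q := (h.upc hc r q).1 h1
      refine iff_of_false (fun a => ?_) (fun a => ?_)
      · have := (h.upc hc q t).1 a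
        linarith
      · have := (h.upc hc q r).1 a
        linarith
    · have hx' : ∀ q, x ≠ c q := fun q hq => hx ⟨q, hq⟩
      exact ⟨h.upk hc hx' t r, h.upk hc hx' r t⟩
  · have hn' : ∀ q, n ≠ c q := fun q hq => hn ⟨q, hq⟩
    have hx' : ∀ q, x ≠ c q := by
      rintro q rfl
      exact ht (h.upk hc hn' q t h1)
    have := hs (fun a => ht (h.upk hc hn' s t a))
    exact ⟨fun a => this.1 (h.upk hc hx' t s a), fun a => h.upk hc hx' s t (this.2 a)⟩

theorem Up_smul (g : G) (w x : X) : Up up (g • w) (g • x) ↔ Up up w x := by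
  unfold Up
  rw [h.ups_iff, smul_left_cancel_iff]

theorem Sep_smul (g : G) (x y : X) : {w | g • w ∈ Sep up (g • x) (g • y)} = Sep up x y := by
  ext w
  simp only [Sep, mem_ofPred_eq, h.Up_smul]

theorem Up_chart {c} (hc : c ∈ C) (r t : ℝ) : Up up (c r) (c t) ↔ r ≤ t := by
  unfold Up
  rw [h.upc hc]
  constructor
  · rintro (a | a)
    · exact a.le
    · exact (h.inj hc a).ge
  · intro a
    rcases a.lt_or_eq with a | a
    · exact Or.inl a
    · exact Or.inr (by rw [a])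

theorem Sep_chart {c} (hc : c ∈ C) (s t : ℝ) : Sep up (c s) (c t) = c '' Ioc s t := by
  ext w
  constructor
  · rintro ⟨a, b⟩
    by_cases hw : ∃ r, w = c r
    · obtain ⟨r, rfl⟩ := hw
      rw [h.Up_chart hc] at a b
      exact ⟨r, ⟨not_le.1 a, b⟩, rfl⟩
    · have hw' : ∀ r, w ≠ c r := fun r e => hw ⟨r, e⟩
      rcases b with b | b
      · exact absurd (Or.inl (h.upk hc hw' t s b)) a
      · exact absurd b.symm (hw' t)
  · rintro ⟨r, hr, rfl⟩
    exact ⟨by rw [h.Up_chart hc]; exact not_le.2 hr.1, by rw [h.Up_chart hc]; exact hr.2⟩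

theorem asym {x y v w : X} (hv : v ∈ Sep up x y) (hw : w ∈ Sep up x y) (a : up w v) :
    ¬ up v w := fun b =>
  hv.1 (Or.inl ((h.sep' a (fun e => hw.1 (Or.inl e))).2 b))

theorem tot {x y v w : X} (hv : v ∈ Sep up x y) (hw : w ∈ Sep up x y) (hne : v ≠ w) :
    up w v ∨ up v w := by
  by_cases a : up w v
  · exact Or.inl a
  · right
    rcases hv.2 with b | b
    · exact (h.sep a hne hw.2).1 b
    · exfalso
      have := hw.2
      rw [b] at this
      exact this.elim a hne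

theorem ab_not {x y z a b : X} (ha : a ∈ Sep up x y) (hb : b ∈ Sep up x y) (ha' : Up up a z)
    (hb' : ¬ Up up b z) : ¬ up b a := fun e =>
  hb' (Or.inl ((h.sep (h.asym ha hb e) (fun e' => hb' (e' ▸ ha')) ha').2 e))

theorem ab_up {x y z a b : X} (ha : a ∈ Sep up x y) (hb : b ∈ Sep up x y) (ha' : Up up a z)
    (hb' : ¬ Up up b z) : up a b :=
  (h.tot hb ha (fun e => hb' (e ▸ ha'))).resolve_right (h.ab_not ha hb ha' hb')

theorem upA {x y z : X} {d} (hd : d ∈ C) {s s' : ℝ} {a : X} (h1 : d s ∈ Sep up x y)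
    (h2 : d s' ∈ Sep up x y) (h2' : ¬ Up up (d s') z) (ha : a ∈ Sep up x y) (ha' : Up up a z)
    (e : up (d s) a) : ∃ r, s < r ∧ r < s' ∧ a = d r := by
  have b := h.ab_up ha h2 ha' h2'
  by_cases hw : ∃ r, a = d r
  · obtain ⟨r, rfl⟩ := hw
    exact ⟨r, (h.upc hd _ _).1 e, (h.upc hd _ _).1 b, rfl⟩
  · exact absurd (h.upk hd (fun r e => hw ⟨r, e⟩) s' s b) (h.asym ha h1 e)

theorem dnB {x y z : X} {d} (hd : d ∈ C) {s s' : ℝ} {b : X} (h1 : d s ∈ Sep up x y)
    (h1' : Up up (d s) z) (hb : b ∈ Sep up x y) (hb' : ¬ Up up b z)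
    (e : up b (d s')) : ∃ r, s < r ∧ r < s' ∧ b = d r := by
  by_cases hw : ∃ r, b = d r
  · obtain ⟨r, rfl⟩ := hw
    exact ⟨r, (h.upc hd _ _).1 (h.ab_up h1 hb h1' hb'), (h.upc hd _ _).1 e, rfl⟩
  · exact absurd (h.upk hd (fun r e => hw ⟨r, e⟩) s' s e) (h.ab_not h1 hb h1' hb')

/-- An invariant additive set function which is positive on a segment gives a character. -/
theorem hom (m : Set X → ℝ) (m0 : m ∅ = 0) (mn : ∀ x y, 0 ≤ m (Sep up x y))
    (mi : ∀ (g : G) x y, m (Sep up (g • x) (g • y)) = m (Sep up x y))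
    (ma : ∀ x y z, m (Sep up x y) =
      m (Sep up x y ∩ {w | Up up w z}) + m (Sep up x y ∩ {w | ¬ Up up w z}))
    {c} (hc : c ∈ C) {s t : ℝ} (hst : s ≤ t) (hpos : 0 < m (c '' Ioc s t)) :
    ∃ χ : G →* Multiplicative ℝ, χ ≠ 1 := by
  set l : X → X → ℝ := fun x y => m (Sep up x y) - m (Sep up y x) with hl
  have coc : ∀ x y z, l x y + l y z = l x z := by
    intro x y z
    have e1 : Sep up x y ∩ {w | Up up w z} = Sep up x z ∩ {w | Up up w y} := by
      ext w; simp only [Sep, mem_inter_iff, mem_ofPred_eq]; tauto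
    have e2 : Sep up x y ∩ {w | ¬ Up up w z} = Sep up z y ∩ {w | ¬ Up up w x} := by
      ext w; simp only [Sep, mem_inter_iff, mem_ofPred_eq]; tauto
    have e3 : Sep up y x ∩ {w | Up up w z} = Sep up y z ∩ {w | Up up w x} := by
      ext w; simp only [Sep, mem_inter_iff, mem_ofPred_eq]; tauto
    have e4 : Sep up y x ∩ {w | ¬ Up up w z} = Sep up z x ∩ {w | ¬ Up up w y} := by
      ext w; simp only [Sep, mem_inter_iff, mem_ofPred_eq]; tauto
    have e5 : Sep up y z ∩ {w | ¬ Up up w x} = Sep up x z ∩ {w | ¬ Up up w y} := by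
      ext w; simp only [Sep, mem_inter_iff, mem_ofPred_eq]; tauto
    have e6 : Sep up z y ∩ {w | Up up w x} = Sep up z x ∩ {w | Up up w y} := by
      ext w; simp only [Sep, mem_inter_iff, mem_ofPred_eq]; tauto
    have a1 := ma x y z
    have a2 := ma y x z
    have a3 := ma y z x
    have a4 := ma z y x
    have a5 := ma x z y
    have a6 := ma z x y
    rw [e1, e2] at a1
    rw [e3, e4] at a2
    rw [e5] at a3
    rw [e6] at a4
    simp only [hl]
    linarith
  have linv : ∀ (g : G) x y, l (g • x) (g • y) = l x y := fun g x y => by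
    simp only [hl, mi]
  have lch : ∀ d ∈ C, ∀ u v : ℝ, u ≤ v → l (d u) (d v) = m (d '' Ioc u v) := by
    intro d hd u v huv
    simp only [hl]
    rw [h.Sep_chart hd, h.Sep_chart hd, Ioc_eq_empty (not_lt.2 huv), image_empty, m0, sub_zero]
  set x0 := c s
  have l0 : l x0 x0 = 0 := by simp [hl]
  let χ : G →* Multiplicative ℝ :=
    { toFun := fun g => Multiplicative.ofAdd (l x0 (g • x0))
      map_one' := by simp [l0]
      map_mul' := fun a b => by
        rw [← ofAdd_add, mul_smul, ← coc x0 (a • x0) (a • b • x0), linv] }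
  refine ⟨χ, fun e => ?_⟩
  have hχ : ∀ g : G, l x0 (g • x0) = 0 := fun g => by
    have := DFunLike.congr_fun e g
    exact this
  set Φ : X → ℝ := fun y => l x0 y with hΦ
  have Φinv : ∀ (g : G) y, Φ (g • y) = Φ y := fun g y => by
    simp only [hΦ]
    rw [← coc x0 (g • x0) (g • y), hχ, linv, zero_add]
  have Φmono : ∀ d ∈ C, ∀ u v : ℝ, u ≤ v → Φ (d u) ≤ Φ (d v) := by
    intro d hd u v huv
    have a := coc x0 (d u) (d v)
    have b := mn (d u) (d v)
    rw [lch d hd u v huv] at a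
    rw [h.Sep_chart hd] at b
    simp only [hΦ]
    linarith
  have hlt : Φ (c s) < Φ (c t) := by
    have a := coc x0 (c s) (c t)
    have b := lch c hc s t hst
    simp only [hΦ]
    linarith
  obtain ⟨r, hr⟩ : ∃ r : ℝ, ∀ v < r, ∀ u > r, Φ (c v) < Φ (c u) := by
    by_contra hcon
    push Not at hcon
    have : IsLocallyConstant fun r => Φ (c r) := by
      rw [IsLocallyConstant.iff_eventually_eq]
      intro r
      obtain ⟨v, hv, u, hu, e⟩ := hcon r
      filter_upwards [Ioo_mem_nhds hv hu] with w hw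
      have a1 := Φmono c hc v w hw.1.le
      have a2 := Φmono c hc w u hw.2.le
      have a3 := Φmono c hc v r hv.le
      have a4 := Φmono c hc r u hu.le
      linarith
    exact hlt.ne (this.apply_eq_of_preconnectedSpace s t)
  have right : ∀ d ∈ C, ∀ e ∈ C, ∀ a b b' : ℝ, e a = d b → b < b' →
      ∃ u > a, Φ (e u) ≤ Φ (d b') := by
    intro d hd e he a b b' e1 hb
    have := (h.near he hd e1 (Iio_mem_nhds hb)).filter_mono (nhdsWithin_le_nhds (s := Ioi a))
    obtain ⟨u, ⟨v, hv, e2⟩, hu⟩ := (this.and self_mem_nhdsWithin).exists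
    exact ⟨u, hu, by rw [e2]; exact Φmono d hd v b' (le_of_lt hv)⟩
  have left : ∀ d ∈ C, ∀ e ∈ C, ∀ a b b' : ℝ, e a = d b → b' < b →
      ∃ u < a, Φ (d b') ≤ Φ (e u) := by
    intro d hd e he a b b' e1 hb
    have := (h.near he hd e1 (Ioi_mem_nhds hb)).filter_mono (nhdsWithin_le_nhds (s := Iio a))
    obtain ⟨u, ⟨v, hv, e2⟩, hu⟩ := (this.and self_mem_nhdsWithin).exists
    exact ⟨u, hu, by rw [e2]; exact Φmono d hd b' v (le_of_lt hv)⟩
  have key : ∀ y, Relation.TransGen (Asc C) (c r) y → ∀ e ∈ C, ∀ r', e r' = y →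
      ∃ u > r, ∃ v < r', Φ (c u) ≤ Φ (e v) := by
    intro y hy
    induction hy with
    | single a =>
      obtain ⟨d, hd, p, q, hpq, e1, e2⟩ := a
      intro e he r' e3
      obtain ⟨u, hu, a1⟩ := right d hd c hc r p ((p + q) / 2) e1.symm (by linarith)
      obtain ⟨v, hv, a2⟩ := left d hd e he r' q ((p + q) / 2) (e3.trans e2.symm) (by linarith)
      exact ⟨u, hu, v, hv, a1.trans a2⟩
    | tail _ a ih =>
      obtain ⟨d, hd, p, q, hpq, e1, e2⟩ := a
      intro e he r' e3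
      obtain ⟨u, hu, v, hv, a1⟩ := ih d hd p e1
      obtain ⟨v', hv', a2⟩ := left d hd e he r' q p (e3.trans e2.symm) hpq
      exact ⟨u, hu, v', hv', a1.trans ((Φmono d hd v p hv.le).trans a2)⟩
  obtain ⟨g, hg⟩ := h.pre.taut (c r)
  obtain ⟨u, hu, v, hv, a⟩ := key _ hg (fun t => g • c t) (h.pre.smul g c hc) r rfl
  rw [Φinv] at a
  exact absurd (hr v hv u hu) (not_lt.2 a)

end Ob

end Pool.Agent.Work.MP_3d425c_gt.Sk
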