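import Pool.Agent.Work.MP_3d425c_gt.Sk.Hom

/-! Cocompact actions without real characters: every closed invariant set contains a minimal one,
and a segment through two of its points is contracted into every interval meeting it. -/

namespace Pool.Agent.Work.MP_3d425c_gt.Sk
open Set Filter Topology Pool.Agent.Work.MP_3d425c_gt.Cy

variable {G X : Type*} [Group G] [MulAction G X] {C : Set (ℝ → X)} {up : X → X → Prop}

/-- Nonempty, invariant, closed in every chart. -/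
structure Cls (G : Type*) {X : Type*} [Group G] [MulAction G X] (C : Set (ℝ → X)) (Z : Set X) :
    Prop where
  ne : Z.Nonempty
  inv : ∀ g : G, ∀ x ∈ Z, g • x ∈ Z
  cl : ∀ c ∈ C, IsClosed {t | c t ∈ Z}

theorem exists_min {ι : Type*} [Finite ι] (c : ι → ℝ → X) (hc : ∀ i, c i ∈ C)
    (hcov : ∀ x, ∃ (g : G) (i : ι), ∃ t ∈ Ioo (0 : ℝ) 1, x = g • c i t) {Z : Set X}
    (hZ : Cls G C Z) : ∃ Λ ⊆ Z, Cls G C Λ ∧ ∀ Λ' ⊆ Λ, Cls G C Λ' → Λ ⊆ Λ' := by
  obtain ⟨Λ, h1, h2⟩ := zorn_superset_nonempty {Λ | Cls G C Λ} (fun 𝒞 h𝒞 hch hne => by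
    refine ⟨⋂₀ 𝒞, ⟨?_, fun g x hx A hA => (h𝒞 hA).inv g x (hx A hA), fun d hd => ?_⟩,
      fun A hA => sInter_subset_of_mem hA⟩
    · by_contra hcon
      have hi : ∀ i, ∃ A ∈ 𝒞, ∀ t ∈ Icc (0 : ℝ) 1, c i t ∉ A := by
        intro i
        by_contra h3
        push Not at h3
        have : Nonempty 𝒞 := hne.to_subtype
        obtain ⟨t, ht⟩ := IsCompact.nonempty_iInter_of_directed_nonempty_isCompact_isClosed
          (fun A : 𝒞 => Icc (0 : ℝ) 1 ∩ {t | c i t ∈ A.1})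
          (fun A B => by
            rcases hch.total A.2 B.2 with e | e
            · exact ⟨A, subset_rfl, fun t ht => ⟨ht.1, e ht.2⟩⟩
            · exact ⟨B, fun t ht => ⟨ht.1, e ht.2⟩, subset_rfl⟩)
          (fun A => by
            obtain ⟨t, a, b⟩ := h3 A.1 A.2
            exact ⟨t, a, b⟩)
          (fun A => isCompact_Icc.inter_right ((h𝒞 A.2).cl _ (hc i)))
          (fun A => isClosed_Icc.inter ((h𝒞 A.2).cl _ (hc i)))
        exact hcon ⟨c i t, fun A hA => (mem_iInter.1 ht ⟨A, hA⟩).2⟩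
      choose A hA hA' using hi
      obtain ⟨B, hB, hB'⟩ : ∃ B ∈ 𝒞, ∀ i, B ⊆ A i := by
        have := Fintype.ofFinite ι
        have key : ∀ s : Finset ι, ∃ B ∈ 𝒞, ∀ i ∈ s, B ⊆ A i := by
          classical
          intro s
          induction s using Finset.induction_on with
          | empty => exact ⟨_, hne.some_mem, by simp⟩
          | insert j s _ ih =>
            obtain ⟨B, hB, hB'⟩ := ih
            rcases hch.total hB (hA j) with e | e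
            · refine ⟨B, hB, fun i hi => ?_⟩
              rcases Finset.mem_insert.1 hi with rfl | hi
              · exact e
              · exact hB' i hi
            · refine ⟨A j, hA j, fun i hi => ?_⟩
              rcases Finset.mem_insert.1 hi with rfl | hi
              · exact subset_rfl
              · exact subset_trans e (hB' i hi)
        obtain ⟨B, hB, hB'⟩ := key Finset.univ
        exact ⟨B, hB, fun i => hB' i (Finset.mem_univ i)⟩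
      obtain ⟨x, hx⟩ := (h𝒞 hB).ne
      obtain ⟨g, i, t, ht, rfl⟩ := hcov x
      have := (h𝒞 hB).inv g⁻¹ _ hx
      rw [inv_smul_smul] at this
      exact hA' i t (Ioo_subset_Icc_self ht) (hB' i this)
    · have : {t | d t ∈ ⋂₀ 𝒞} = ⋂ A ∈ 𝒞, {t | d t ∈ A} := by
        ext t; simp
      rw [this]
      exact isClosed_biInter fun A hA => (h𝒞 hA).cl d hd) Z hZ
  exact ⟨Λ, h1, h2.prop, fun Λ' a b => h2.le_of_le b a⟩

theorem reach (h : Ob G C up) {Λ : Set X} (hΛ : Cls G C Λ)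
    (hmin : ∀ Λ' ⊆ Λ, Cls G C Λ' → Λ ⊆ Λ') {d} (hd : d ∈ C) {α r β : ℝ} (h1 : α < r) (h2 : r < β)
    (hr : d r ∈ Λ) {y} (hy : y ∈ Λ) : ∃ g : G, ∃ s ∈ Ioo α β, y = g • d s := by
  by_contra hcon
  have := hmin {y ∈ Λ | ¬ ∃ g : G, ∃ s ∈ Ioo α β, y = g • d s} (fun _ a => a.1)
    ⟨⟨y, hy, hcon⟩, fun g x hx => ⟨hΛ.inv g x hx.1, fun ⟨k, s, hs, e⟩ =>
      hx.2 ⟨g⁻¹ * k, s, hs, by rw [mul_smul, ← e, inv_smul_smul]⟩⟩, fun e he => by
      refine (hΛ.cl e he).inter (IsOpen.isClosed_compl (s := {t | ∃ g : G, ∃ s ∈ Ioo α β,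
        e t = g • d s}) ?_)
      refine isOpen_iff_mem_nhds.2 fun t ⟨g, s, hs, a⟩ => ?_
      filter_upwards [h.near he (h.pre.smul g d hd) a (Ioo_mem_nhds hs.1 hs.2)] with u ⟨v, hv, b⟩
      exact ⟨g, v, hv, b⟩⟩ hr
  exact this.2 ⟨1, r, ⟨h1, h2⟩, by simp⟩

theorem fin_max {α : Type*} (R : α → α → Prop) (s : Finset α) (hs : s.Nonempty)
    (tot : ∀ a ∈ s, ∀ b ∈ s, R a b ∨ R b a) (tr : ∀ a b c, R a b → R b c → R a c) :
    ∃ m ∈ s, ∀ a ∈ s, R a m := by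
  classical
  induction hs using Finset.Nonempty.cons_induction with
  | singleton a => exact ⟨a, by simp, by simpa using tot a (by simp) a (by simp)⟩
  | cons a s ha hs ih =>
    obtain ⟨m, hm, hm'⟩ := ih fun x hx y hy =>
      tot x (Finset.mem_cons_of_mem hx) y (Finset.mem_cons_of_mem hy)
    rcases tot a (Finset.mem_cons_self _ _) m (Finset.mem_cons_of_mem hm) with e | e
    · refine ⟨m, Finset.mem_cons_of_mem hm, fun x hx => ?_⟩
      rcases Finset.mem_cons.1 hx with rfl | hx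
      · exact e
      · exact hm' x hx
    · refine ⟨a, Finset.mem_cons_self _ _, fun x hx => ?_⟩
      rcases Finset.mem_cons.1 hx with rfl | hx
      · exact (tot x (Finset.mem_cons_self _ _) x (Finset.mem_cons_self _ _)).elim id id
      · exact tr _ _ _ (hm' x hx) e

section Count
set_option linter.unusedSectionVars false
variable (P : G → Set X)

/-- `F` indexes a cover of `A` by pieces. -/
def Cv (F : Finset G) (A : Set X) : Prop := ∀ w ∈ A, ∃ g ∈ F, w ∈ P g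

/-- The covering number. -/
noncomputable def Nc (A : Set X) : ℕ := sInf {k | ∃ F : Finset G, F.card = k ∧ Cv P F A}

variable {P}

theorem Nc_le {F : Finset G} {A : Set X} (h : Cv P F A) : Nc P A ≤ F.card :=
  Nat.sInf_le ⟨F, rfl, h⟩

theorem Nc_spec {A : Set X} (h : ∃ F, Cv P F A) : ∃ F : Finset G, F.card = Nc P A ∧ Cv P F A :=
  Nat.sInf_mem (s := {k | ∃ F : Finset G, F.card = k ∧ Cv P F A})
    (let ⟨F, hF⟩ := h; ⟨_, F, rfl, hF⟩)

theorem Nc_mono {A B : Set X} (hAB : A ⊆ B) (h : ∃ F, Cv P F B) : Nc P A ≤ Nc P B := by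
  obtain ⟨F, e, hF⟩ := Nc_spec h
  exact e ▸ Nc_le fun w hw => hF w (hAB hw)

theorem Nc_empty : Nc P ∅ = 0 :=
  Nat.le_zero.1 (Nc_le (F := ∅) fun _ hw => hw.elim)

theorem Nc_union {A B : Set X} (hA : ∃ F, Cv P F A) (hB : ∃ F, Cv P F B) :
    (∃ F, Cv P F (A ∪ B)) ∧ Nc P (A ∪ B) ≤ Nc P A + Nc P B := by
  classical
  obtain ⟨F, e, hF⟩ := Nc_spec hA
  obtain ⟨F', e', hF'⟩ := Nc_spec hB
  have : Cv P (F ∪ F') (A ∪ B) := by
    rintro w (hw | hw)
    · obtain ⟨g, a, b⟩ := hF w hw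
      exact ⟨g, Finset.mem_union_left _ a, b⟩
    · obtain ⟨g, a, b⟩ := hF' w hw
      exact ⟨g, Finset.mem_union_right _ a, b⟩
  exact ⟨⟨_, this⟩, (Nc_le this).trans (e ▸ e' ▸ Finset.card_union_le _ _)⟩

theorem cv_smul (hP : ∀ (g k : G) w, w ∈ P k → g • w ∈ P (g * k)) (g : G) {A B : Set X}
    (hAB : ∀ w ∈ B, g⁻¹ • w ∈ A) (h : ∃ F, Cv P F A) : (∃ F, Cv P F B) ∧ Nc P B ≤ Nc P A := by
  classical
  obtain ⟨F, e, hF⟩ := Nc_spec h
  have : Cv P (F.image (g * ·)) B := fun w hw => by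
    obtain ⟨k, a, b⟩ := hF _ (hAB w hw)
    exact ⟨g * k, Finset.mem_image_of_mem _ a, by simpa using hP g k _ b⟩
  exact ⟨⟨_, this⟩, (Nc_le this).trans (e ▸ Finset.card_image_le)⟩

theorem Nc_split {A B : Set X} (h : ∃ F, Cv P F (A ∪ B))
    (hA : ∀ g k, (P g ∩ B).Nonempty → (P k ∩ B).Nonempty → P g ∩ A ⊆ P k ∨ P k ∩ A ⊆ P g) :
    Nc P A + Nc P B ≤ Nc P (A ∪ B) + 1 := by
  classical
  obtain ⟨F, e, hF⟩ := Nc_spec h
  obtain ⟨E, cE, hE⟩ : ∃ E : Finset G, E.card ≤ 1 ∧ ∀ g ∈ F, (P g ∩ B).Nonempty →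
      ∀ w ∈ P g ∩ A, ∃ k ∈ E, w ∈ P k := by
    rcases (F.filter fun g => (P g ∩ B).Nonempty).eq_empty_or_nonempty with a | a
    · refine ⟨∅, by simp, fun g hg h1 => ?_⟩
      have : g ∈ F.filter fun g => (P g ∩ B).Nonempty := Finset.mem_filter.2 ⟨hg, h1⟩
      rw [a] at this
      simp at this
    · obtain ⟨m, -, hm⟩ := fin_max (fun g k => P g ∩ A ⊆ P k ∩ A) _ a
        (fun g hg k hk => by
          rcases hA g k (Finset.mem_filter.1 hg).2 (Finset.mem_filter.1 hk).2 with b | b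
          · exact Or.inl fun w hw => ⟨b hw, hw.2⟩
          · exact Or.inr fun w hw => ⟨b hw, hw.2⟩)
        (fun _ _ _ a b => a.trans b)
      exact ⟨{m}, by simp, fun g hg h1 w hw =>
        ⟨m, by simp, (hm g (Finset.mem_filter.2 ⟨hg, h1⟩) hw).1⟩⟩
  have c1 : Cv P ((F.filter fun g => ¬ (P g ∩ B).Nonempty) ∪ E) A := fun w hw => by
    obtain ⟨g, a, b⟩ := hF w (Or.inl hw)
    by_cases hb : (P g ∩ B).Nonempty
    · obtain ⟨k, a', b'⟩ := hE g a hb w ⟨b, hw⟩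
      exact ⟨k, Finset.mem_union_right _ a', b'⟩
    · exact ⟨g, Finset.mem_union_left _ (Finset.mem_filter.2 ⟨a, hb⟩), b⟩
  have c2 : Cv P (F.filter fun g => (P g ∩ B).Nonempty) B := fun w hw => by
    obtain ⟨g, a, b⟩ := hF w (Or.inr hw)
    exact ⟨g, Finset.mem_filter.2 ⟨a, w, b, hw⟩, b⟩
  have n1 := (Nc_le c1).trans (Finset.card_union_le _ _)
  have n2 := Nc_le c2
  have n3 := Finset.card_filter_add_card_filter_not (s := F) fun g => (P g ∩ B).Nonempty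
  omega

end Count

section Bd
variable {ι : Type*} (c : ι → ℝ → X)

/-- Covered by finitely many translates of the compact segments. -/
def Bd (G : Type*) {X ι : Type*} [Group G] [MulAction G X] (c : ι → ℝ → X) (A : Set X) : Prop :=
  ∃ F : Finset (G × ι), ∀ w ∈ A, ∃ p ∈ F, ∃ t ∈ Icc (0 : ℝ) 1, w = p.1 • c p.2 t

variable {c}

theorem Bd.mono {A B : Set X} (h : Bd G c B) (hAB : A ⊆ B) : Bd G c A :=
  let ⟨F, hF⟩ := h; ⟨F, fun w hw => hF w (hAB hw)⟩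

theorem Bd.union {A B : Set X} (hA : Bd G c A) (hB : Bd G c B) : Bd G c (A ∪ B) := by
  classical
  obtain ⟨F, hF⟩ := hA
  obtain ⟨F', hF'⟩ := hB
  refine ⟨F ∪ F', ?_⟩
  rintro w (hw | hw)
  · obtain ⟨p, a, b⟩ := hF w hw
    exact ⟨p, Finset.mem_union_left _ a, b⟩
  · obtain ⟨p, a, b⟩ := hF' w hw
    exact ⟨p, Finset.mem_union_right _ a, b⟩

theorem bd_seg (h : Ob G C up) (hc : ∀ i, c i ∈ C)
    (hcov : ∀ x, ∃ (g : G) (i : ι), ∃ t ∈ Ioo (0 : ℝ) 1, x = g • c i t) {d} (hd : d ∈ C)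
    (s t : ℝ) : Bd G c (d '' Icc s t) := by
  refine (isCompact_Icc (a := s) (b := t)).induction_on (p := fun K => Bd G c (d '' K))
    ⟨∅, by simp⟩ (fun a b hab hb => hb.mono (image_mono hab))
    (fun a b ha hb => by rw [image_union]; exact ha.union hb) fun r _ => ?_
  obtain ⟨g, i, u, hu, e⟩ := hcov (d r)
  refine ⟨_, mem_nhdsWithin_of_mem_nhds
    (h.near hd (h.pre.smul g _ (hc i)) e (Ioo_mem_nhds hu.1 hu.2)), {(g, i)}, ?_⟩
  rintro w ⟨v, ⟨z, hz, a⟩, rfl⟩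
  exact ⟨(g, i), by simp, z, Ioo_subset_Icc_self hz, a⟩

theorem bd_sep (h : Ob G C up) (hc : ∀ i, c i ∈ C)
    (hcov : ∀ x, ∃ (g : G) (i : ι), ∃ t ∈ Ioo (0 : ℝ) 1, x = g • c i t) (x y : X) :
    Bd G c (Sep up x y) := by
  have base : ∀ d ∈ C, ∀ s t, Bd G c (Sep up (d s) (d t)) := fun d hd s t => by
    rw [h.Sep_chart hd]
    exact (bd_seg h hc hcov hd s t).mono (image_mono Ioc_subset_Icc_self)
  refine h.pre.conn (fun y => Bd G c (Sep up x y)) (fun d hd s t a => ?_) x y ⟨∅, fun w hw => ?_⟩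
  · refine (a.union (base d hd s t)).mono fun w hw => ?_
    by_cases e : Up up w (d s)
    · exact Or.inl ⟨hw.1, e⟩
    · exact Or.inr ⟨e, hw.2⟩
  · exact absurd hw.2 hw.1

theorem Bd.ind {Q : Set X → Prop} (h0 : Q ∅) (hu : ∀ A B, Q A → Q B → Q (A ∪ B))
    (hm : ∀ A B, A ⊆ B → Q B → Q A)
    (hs : ∀ (g : G) i, Q ((fun t => g • c i t) '' Icc 0 1)) {A : Set X} (h : Bd G c A) : Q A := by
  classical
  obtain ⟨F, hF⟩ := h
  have : Q (⋃ p ∈ F, (fun t => p.1 • c p.2 t) '' Icc 0 1) := by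
    clear hF
    induction F using Finset.induction_on with
    | empty => simpa using h0
    | insert p s _ ih =>
      rw [Finset.set_biUnion_insert]
      exact hu _ _ (hs _ _) ih
  refine hm _ _ (fun w hw => ?_) this
  obtain ⟨p, a, t, ht, e⟩ := hF w hw
  exact mem_biUnion a ⟨t, ht, e.symm⟩

end Bd

theorem discrete (h : Ob G C up) {ι : Type*} {c : ι → ℝ → X} (hc : ∀ i, c i ∈ C)
    (hcov : ∀ x, ∃ (g : G) (i : ι), ∃ t ∈ Ioo (0 : ℝ) 1, x = g • c i t) {Λ : Set X}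
    (hΛ : Cls G C Λ) (hfin : ∀ i, {t ∈ Icc (0 : ℝ) 1 | c i t ∈ Λ}.Finite) :
    ∃ χ : G →* Multiplicative ℝ, χ ≠ 1 := by
  have fin : ∀ {A}, Bd G c A → (A ∩ Λ).Finite := fun hA =>
    hA.ind (Q := fun A => (A ∩ Λ).Finite) (by simp)
      (fun A B a b => by rw [union_inter_distrib_right]; exact a.union b)
      (fun A B e b => b.subset (inter_subset_inter_left _ e))
      (fun g i => ((hfin i).image fun t => g • c i t).subset (by
        rintro w ⟨⟨t, ht, rfl⟩, hw⟩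
        exact ⟨t, ⟨ht, by simpa using hΛ.inv g⁻¹ _ hw⟩, rfl⟩))
  obtain ⟨x, hx⟩ := hΛ.ne
  obtain ⟨g, i, t, ht, rfl⟩ := hcov x
  refine h.hom (fun A => ((A ∩ Λ).ncard : ℝ)) (by simp) (fun _ _ => by positivity)
    (fun g x y => ?_) (fun x y z => ?_) (hc i) (zero_le_one) ?_
  · congr 1
    have i1 : ∀ w ∈ Sep up x y ∩ Λ, g • w ∈ Sep up (g • x) (g • y) ∩ Λ := fun w hw =>
      ⟨by have := hw.1; rw [← h.Sep_smul g x y] at this; exact this, hΛ.inv _ _ hw.2⟩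
    have i2 : ∀ w ∈ Sep up (g • x) (g • y) ∩ Λ, g⁻¹ • w ∈ Sep up x y ∩ Λ := fun w hw =>
      ⟨by rw [← h.Sep_smul g x y]; simpa using hw.1, hΛ.inv _ _ hw.2⟩
    exact (ncard_congr (fun w _ => g • w) i1 (fun a b _ _ e => smul_left_cancel g e)
      fun w hw => ⟨g⁻¹ • w, i2 w hw, by simp⟩).symm
  · have f := fin (bd_sep h hc hcov x y)
    have f1 : (Sep up x y ∩ {w | Up up w z} ∩ Λ).Finite :=
      f.subset fun w hw => ⟨hw.1.1, hw.2⟩
    have f2 : (Sep up x y ∩ {w | ¬ Up up w z} ∩ Λ).Finite :=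
      f.subset fun w hw => ⟨hw.1.1, hw.2⟩
    rw [← Nat.cast_add, ← ncard_union_eq ?_ f1 f2]
    · congr 2
      ext w
      simp only [mem_inter_iff, mem_union, mem_ofPred_eq]
      tauto
    · exact disjoint_left.2 fun w a b => b.1.2 a.1.2
  · have f := fin ((bd_seg h hc hcov (hc i) 0 1).mono (image_mono Ioc_subset_Icc_self))
    exact_mod_cast (ncard_pos f).2 ⟨c i t, ⟨t, Ioo_subset_Ioc_self ht, rfl⟩,
      by simpa using hΛ.inv g⁻¹ _ hx⟩

theorem unbounded (h : Ob G C up) {ι : Type*} [Fintype ι] {c : ι → ℝ → X} (hc : ∀ i, c i ∈ C)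
    (hcov : ∀ x, ∃ (g : G) (i : ι), ∃ t ∈ Ioo (0 : ℝ) 1, x = g • c i t) {Λ : Set X}
    (hΛ : Cls G C Λ) {d} (hd : d ∈ C) (α β : ℕ → ℝ)
    (hcv : ∀ n i, ∃ F, Cv (fun g : G => (fun t => g • d t) '' Ioo (α n) (β n)) F
      (c i '' Icc 0 1 ∩ Λ))
    (hbig : ∀ n, n + 1 ≤ ∑ i, Nc (fun g : G => (fun t => g • d t) '' Ioo (α n) (β n))
      (c i '' Icc 0 1 ∩ Λ)) :
    ∃ χ : G →* Multiplicative ℝ, χ ≠ 1 := by
  classical
  set P : ℕ → G → Set X := fun n g => (fun t => g • d t) '' Ioo (α n) (β n) with hP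
  set M : ℕ → ℕ := fun n => ∑ i, Nc (P n) (c i '' Icc 0 1 ∩ Λ) with hM
  have hPs : ∀ n (g k : G) w, w ∈ P n k → g • w ∈ P n (g * k) := by
    rintro n g k w ⟨t, ht, rfl⟩
    exact ⟨t, ht, by simp [mul_smul]⟩
  have bd : ∀ {A}, Bd G c A → ∃ K : ℕ, ∀ n, (∃ F, Cv (P n) F (A ∩ Λ)) ∧
      Nc (P n) (A ∩ Λ) ≤ K * M n := fun hA =>
    hA.ind (Q := fun A => ∃ K : ℕ, ∀ n, (∃ F, Cv (P n) F (A ∩ Λ)) ∧ Nc (P n) (A ∩ Λ) ≤ K * M n)
      ⟨0, fun n => ⟨⟨∅, by simp [Cv]⟩, by simp [Nc_empty]⟩⟩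
      (fun A B ⟨K, a⟩ ⟨K', b⟩ => ⟨K + K', fun n => by
        rw [union_inter_distrib_right]
        have := Nc_union (a n).1 (b n).1
        exact ⟨this.1, by nlinarith [this.2, (a n).2, (b n).2]⟩⟩)
      (fun A B e ⟨K, b⟩ => ⟨K, fun n => ⟨let ⟨F, hF⟩ := (b n).1
        ⟨F, fun w hw => hF w ⟨e hw.1, hw.2⟩⟩,
        (Nc_mono (inter_subset_inter_left _ e) (b n).1).trans (b n).2⟩⟩)
      (fun g i => ⟨1, fun n => by
        have := cv_smul (hPs n) g (B := (fun t => g • c i t) '' Icc 0 1 ∩ Λ) (by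
          rintro w ⟨⟨t, ht, rfl⟩, hw⟩
          exact ⟨⟨t, ht, by simp⟩, hΛ.inv _ _ hw⟩) (hcv n i)
        refine ⟨this.1, this.2.trans ?_⟩
        rw [one_mul]
        exact Finset.single_le_sum (f := fun i => Nc (P n) (c i '' Icc 0 1 ∩ Λ))
          (fun _ _ => Nat.zero_le _) (Finset.mem_univ i)⟩)
  have Mpos : ∀ n, (0 : ℝ) < M n := fun n => by
    exact_mod_cast lt_of_lt_of_le (Nat.succ_pos n) (hbig n)
  set U : Ultrafilter ℕ := Filter.hyperfilter ℕ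
  set r : Set X → ℕ → ℝ := fun A n => (Nc (P n) (A ∩ Λ) : ℝ) / M n with hr
  set m : Set X → ℝ := fun A => limUnder (U : Filter ℕ) (r A) with hm
  have rn : ∀ A n, 0 ≤ r A n := fun A n => div_nonneg (Nat.cast_nonneg _) (Mpos n).le
  have lim : ∀ {A}, Bd G c A → Tendsto (r A) U (𝓝 (m A)) := fun {A} hA => by
    obtain ⟨K, hK⟩ := bd hA
    obtain ⟨a, -, ha⟩ := (isCompact_Icc (a := (0 : ℝ)) (b := K)).ultrafilter_le_nhds (U.map (r A))
      (by
        rw [le_principal_iff, Ultrafilter.coe_map, mem_map]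
        refine univ_mem' fun n => ⟨rn A n, ?_⟩
        simp only [hr]
        rw [div_le_iff₀ (Mpos n)]
        exact_mod_cast (hK n).2)
    exact tendsto_nhds_limUnder ⟨a, ha⟩
  have small : Tendsto (fun n => 1 / (M n : ℝ)) U (𝓝 0) := by
    refine Tendsto.mono_left ?_ (Nat.hyperfilter_le_atTop)
    refine squeeze_zero (fun n => by positivity) (fun n => ?_)
      tendsto_one_div_add_atTop_nhds_zero_nat
    exact one_div_le_one_div_of_le (by positivity) (by exact_mod_cast hbig n)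
  obtain ⟨i, hi⟩ : ∃ i, 0 < m (c i '' Icc 0 1) := by
    by_contra hcon
    push Not at hcon
    have t1 := tendsto_finsetSum Finset.univ fun i _ => lim (bd_seg h hc hcov (hc i) 0 1)
    have e : (fun n => ∑ i, r (c i '' Icc 0 1) n) = fun _ => 1 := by
      funext n
      simp only [hr]
      rw [← Finset.sum_div, ← Nat.cast_sum]
      exact div_self (Mpos n).ne'
    rw [e] at t1
    have := tendsto_nhds_unique t1 tendsto_const_nhds
    have := Finset.sum_nonpos (s := Finset.univ) fun i _ => hcon i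
    linarith
  have bs := bd_sep h hc hcov
  refine h.hom m ?_ (fun x y => ge_of_tendsto' (lim (bs x y)) (rn _)) (fun g x y => ?_)
    (fun x y z => ?_) (hc i) (s := -1) (t := 1) (by norm_num) ?_
  · refine tendsto_nhds_unique (lim ⟨∅, by simp⟩) ?_
    simp [hr, Nc_empty]
  · simp only [hm]
    congr 1
    funext n
    simp only [hr]
    congr 2
    have i1 : ∀ w ∈ Sep up (g • x) (g • y) ∩ Λ, g⁻¹ • w ∈ Sep up x y ∩ Λ := fun w hw =>
      ⟨by rw [← h.Sep_smul g x y]; simpa using hw.1, hΛ.inv _ _ hw.2⟩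
    have i2 : ∀ w ∈ Sep up x y ∩ Λ, g⁻¹⁻¹ • w ∈ Sep up (g • x) (g • y) ∩ Λ := fun w hw =>
      ⟨by have := hw.1; rw [← h.Sep_smul g x y] at this; rw [inv_inv]; exact this,
        hΛ.inv _ _ hw.2⟩
    exact le_antisymm (cv_smul (hPs n) g i1 ((bd (bs x y)).choose_spec n).1).2
      (cv_smul (hPs n) g⁻¹ i2 ((bd (bs (g • x) (g • y))).choose_spec n).1).2
  · set A := Sep up x y ∩ {w | Up up w z}
    set B := Sep up x y ∩ {w | ¬ Up up w z}
    have bA : Bd G c A := (bs x y).mono inter_subset_left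
    have bB : Bd G c B := (bs x y).mono inter_subset_left
    have e : Sep up x y ∩ Λ = A ∩ Λ ∪ B ∩ Λ := by
      ext w
      simp only [A, B, mem_inter_iff, mem_union, mem_ofPred_eq]
      tauto
    refine le_antisymm (le_of_tendsto_of_tendsto' (lim (bs x y)) ((lim bA).add (lim bB))
      fun n => ?_) ?_
    · simp only [hr]
      rw [← add_div, e]
      refine div_le_div_of_nonneg_right ?_ (Mpos n).le
      exact_mod_cast (Nc_union ((bd bA).choose_spec n).1 ((bd bB).choose_spec n).1).2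
    · have t2 := (lim (bs x y)).add small
      rw [add_zero] at t2
      refine le_of_tendsto_of_tendsto' ((lim bA).add (lim bB)) t2 fun n => ?_
      simp only [hr]
      rw [← add_div, ← add_div, e]
      refine div_le_div_of_nonneg_right ?_ (Mpos n).le
      have := Nc_split (P := P n) (A := A ∩ Λ) (B := B ∩ Λ)
        (e ▸ ((bd (bs x y)).choose_spec n).1) (by
        rintro g k ⟨_, ⟨s', hs', rfl⟩, hb⟩ ⟨_, ⟨u', hu', rfl⟩, hb'⟩
        by_contra hcon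
        rw [not_or, not_subset, not_subset] at hcon
        obtain ⟨⟨_, ⟨⟨s, hs, rfl⟩, ha⟩, n1⟩, _, ⟨⟨u, hu, rfl⟩, ha'⟩, n2⟩ := hcon
        rcases h.tot ha.1.1 ha'.1.1 (fun e => n1 ⟨u, hu, e.symm⟩) with a | a
        · obtain ⟨v, v1, v2, v3⟩ := h.upA (h.pre.smul k d hd) ha'.1.1 hb'.1.1 hb'.1.2 ha.1.1
            ha.1.2 a
          exact n1 ⟨v, ⟨hu.1.trans v1, v2.trans hu'.2⟩, v3.symm⟩
        · obtain ⟨v, v1, v2, v3⟩ := h.upA (h.pre.smul g d hd) ha.1.1 hb.1.1 hb.1.2 ha'.1.1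
            ha'.1.2 a
          exact n2 ⟨v, ⟨hs.1.trans v1, v2.trans hs'.2⟩, v3.symm⟩)
      exact_mod_cast this
  · have b1 : Bd G c (c i '' Ioc (-1) 1) :=
      (bd_seg h hc hcov (hc i) (-1) 1).mono (image_mono Ioc_subset_Icc_self)
    refine hi.trans_le (le_of_tendsto_of_tendsto' (lim (bd_seg h hc hcov (hc i) 0 1)) (lim b1)
      fun n => ?_)
    simp only [hr]
    refine div_le_div_of_nonneg_right ?_ (Mpos n).le
    have sub : Icc (0 : ℝ) 1 ⊆ Ioc (-1) 1 := fun t ht => ⟨by linarith [ht.1], ht.2⟩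
    exact_mod_cast Nc_mono (inter_subset_inter_left _ (image_mono sub)) ((bd b1).choose_spec n).1

/-- The sink lemma. -/
theorem sink (h : Ob G C up) {ι : Type*} [Finite ι] {c : ι → ℝ → X} (hc : ∀ i, c i ∈ C)
    (hcov : ∀ x, ∃ (g : G) (i : ι), ∃ t ∈ Ioo (0 : ℝ) 1, x = g • c i t)
    (h0 : ∀ χ : G →* Multiplicative ℝ, χ = 1) {Z : Set X} (hZ : Cls G C Z) :
    ∃ Λ ⊆ Z, Cls G C Λ ∧
      (∀ d ∈ C, ∀ α r β : ℝ, α < r → r < β → d r ∈ Λ → ∀ y ∈ Λ,
        ∃ g : G, ∃ s ∈ Ioo α β, y = g • d s) ∧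
      ∃ i, ∃ u p q v : ℝ, 0 ≤ u ∧ u < p ∧ p < q ∧ q < v ∧ v ≤ 1 ∧ c i u ∈ Λ ∧ c i p ∈ Λ ∧
        c i q ∈ Λ ∧ c i v ∈ Λ ∧ ∀ d ∈ C, ∀ α r β : ℝ, α < r → r < β → d r ∈ Λ →
          ∃ f : G, ∀ t ∈ Icc u v, ∃ s ∈ Ioo α β, f • c i t = d s := by
  classical
  have := Fintype.ofFinite ι
  obtain ⟨Λ, hΛZ, hΛ, hmin⟩ := exists_min c hc hcov hZ
  refine ⟨Λ, hΛZ, hΛ, fun d hd α r β a b e y hy => reach h hΛ hmin hd a b e hy, ?_⟩
  obtain ⟨z, hz⟩ := hΛ.ne
  obtain ⟨d, hd, t0, rfl⟩ := h.pre.cover z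
  set P : ℕ → G → Set X := fun n g => (fun t => g • d t) ''
    Ioo (t0 - 1 / ((n : ℝ) + 1)) (t0 + 1 / ((n : ℝ) + 1)) with hP
  have hpos : ∀ n : ℕ, 0 < 1 / ((n : ℝ) + 1) := fun n => by positivity
  have hcv : ∀ n i, ∃ F, Cv (P n) F (c i '' Icc 0 1 ∩ Λ) := by
    intro n i
    have := (isCompact_Icc.inter_right (hΛ.cl _ (hc i)) :
      IsCompact (Icc (0 : ℝ) 1 ∩ {t | c i t ∈ Λ})).induction_on
      (p := fun K => ∃ F, Cv (P n) F (c i '' K)) ⟨∅, by simp [Cv]⟩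
      (fun a b hab ⟨F, hF⟩ => ⟨F, fun w hw => hF w (image_mono hab hw)⟩)
      (fun a b ha hb => by rw [image_union]; exact (Nc_union ha hb).1) fun r hr => by
        obtain ⟨g, s, hs, e⟩ := reach h hΛ hmin hd (sub_lt_self t0 (hpos n))
          (lt_add_of_pos_right t0 (hpos n)) hz hr.2
        refine ⟨_, mem_nhdsWithin_of_mem_nhds
          (h.near (hc i) (h.pre.smul g d hd) e (Ioo_mem_nhds hs.1 hs.2)), {g}, ?_⟩
        rintro w ⟨v, ⟨z, hz, a⟩, rfl⟩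
        exact ⟨g, by simp, z, hz, a.symm⟩
    obtain ⟨F, hF⟩ := this
    exact ⟨F, by
      rintro w ⟨⟨t, ht, rfl⟩, hw⟩
      exact hF _ ⟨t, ⟨ht, hw⟩, rfl⟩⟩
  by_cases hb : ∃ K, ∀ n, ∑ i, Nc (P n) (c i '' Icc 0 1 ∩ Λ) ≤ K
  swap
  · push Not at hb
    choose φ hφ using hb
    obtain ⟨χ, hχ⟩ := unbounded h hc hcov hΛ hd (fun n => t0 - 1 / ((φ n : ℝ) + 1))
      (fun n => t0 + 1 / ((φ n : ℝ) + 1)) (fun n i => hcv (φ n) i) fun n => hφ n
    exact absurd (h0 χ) hχ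
  obtain ⟨K, hK⟩ := hb
  obtain ⟨i, hi⟩ : ∃ i, {t ∈ Icc (0 : ℝ) 1 | c i t ∈ Λ}.Infinite := by
    by_contra hcon
    push Not at hcon
    obtain ⟨χ, hχ⟩ := discrete h hc hcov hΛ hcon
    exact hχ (h0 χ)
  obtain ⟨T, hT, hcard⟩ := hi.exists_subset_card_eq (3 * K + 1)
  have four : ∀ n, ∃ Q ∈ T.powersetCard 4, ∃ g, ∀ t ∈ Q, c i t ∈ P n g := by
    intro n
    obtain ⟨F, e, hF⟩ := Nc_spec (hcv n i)
    have hFK : F.card ≤ K := e ▸ le_trans (Finset.single_le_sum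
      (f := fun i => Nc (P n) (c i '' Icc 0 1 ∩ Λ)) (fun _ _ => Nat.zero_le _)
      (Finset.mem_univ i)) (hK n)
    have : ∀ t, ∃ g, t ∈ T → g ∈ F ∧ c i t ∈ P n g := fun t => by
      by_cases ht : t ∈ T
      · obtain ⟨g, a⟩ := hF _ ⟨⟨t, (hT ht).1, rfl⟩, (hT ht).2⟩
        exact ⟨g, fun _ => a⟩
      · exact ⟨1, fun a => absurd a ht⟩
    choose γ hγ using this
    obtain ⟨g, -, hg⟩ := Finset.exists_lt_card_fiber_of_mul_lt_card_of_maps_to
      (s := T) (t := F) (f := γ) (n := 3) (fun t ht => (hγ t ht).1) (by omega)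
    obtain ⟨Q, hQ, hQ4⟩ := Finset.exists_subset_card_eq (n := 4) hg
    refine ⟨Q, Finset.mem_powersetCard.2 ⟨hQ.trans (Finset.filter_subset _ _), hQ4⟩, g,
      fun t ht => ?_⟩
    obtain ⟨a, b⟩ := Finset.mem_filter.1 (hQ ht)
    exact b ▸ (hγ t a).2
  obtain ⟨Q, hQ, hall⟩ : ∃ Q ∈ T.powersetCard 4, ∀ N, ∃ n ≥ N, ∃ g, ∀ t ∈ Q, c i t ∈ P n g := by
    by_contra hcon
    have : ∀ Q : Finset ℝ, ∃ N, Q ∈ T.powersetCard 4 → ∀ n ≥ N, ¬ ∃ g, ∀ t ∈ Q, c i t ∈ P n g := by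
      intro Q
      by_contra a
      push Not at a
      exact hcon ⟨Q, (a 0).1, fun N => (a N).2⟩
    choose N hN using this
    obtain ⟨Q, hQ, a⟩ := four ((T.powersetCard 4).sup N)
    exact hN Q hQ _ (Finset.le_sup hQ) a
  obtain ⟨hQT, hQ4⟩ := Finset.mem_powersetCard.1 hQ
  set e := Q.orderEmbOfFin hQ4
  have he : ∀ j, e j ∈ Q := fun j => Finset.orderEmbOfFin_mem Q hQ4 j
  refine ⟨i, e 0, e 1, e 2, e 3, (hT (hQT (he 0))).1.1, e.strictMono (by decide),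
    e.strictMono (by decide), e.strictMono (by decide), (hT (hQT (he 3))).1.2,
    (hT (hQT (he 0))).2, (hT (hQT (he 1))).2, (hT (hQT (he 2))).2, (hT (hQT (he 3))).2,
    fun d' hd' α r β a b hr => ?_⟩
  obtain ⟨k, s, hs, e1⟩ := reach h hΛ hmin hd' a b hr hz
  obtain ⟨ε, hε, hball⟩ := Metric.mem_nhds_iff.1
    (h.near hd (h.pre.smul k d' hd') e1 (Ioo_mem_nhds hs.1 hs.2))
  obtain ⟨N, hN⟩ := exists_nat_one_div_lt hε
  obtain ⟨n, hn, g, hg⟩ := hall N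
  have hle : 1 / ((n : ℝ) + 1) ≤ 1 / ((N : ℝ) + 1) :=
    one_div_le_one_div_of_le (by positivity) (by exact_mod_cast Nat.succ_le_succ hn)
  obtain ⟨s0, hs0, a0⟩ := hg _ (he 0)
  obtain ⟨s3, hs3, a3⟩ := hg _ (he 3)
  refine ⟨k⁻¹ * g⁻¹, fun t ht => ?_⟩
  obtain ⟨w, w1, w2, w3⟩ := h.conv (hc i) (h.pre.smul g d hd) a0.symm a3.symm ht.1 ht.2
  obtain ⟨s', hs', e2⟩ := hball (show w ∈ Metric.ball t0 ε by
    rw [Metric.mem_ball, Real.dist_eq, abs_lt]
    constructor <;> linarith [hs0.1, hs3.2])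
  refine ⟨s', hs', ?_⟩
  rw [w3, mul_smul, inv_smul_smul, e2, inv_smul_smul]

end Pool.Agent.Work.MP_3d425c_gt.Sk
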